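import Pool.Agent.N436.DF.Stm2

/-!
# The uncrossing lemma (project DF, part DG/1)
-/

set_option autoImplicit false

namespace Pool.Agent.N199.DF

open Finset
open Pool.Agent.N436.DF

variable {V : Type} [DecidableEq V]

/-- the edge weights between two sets -/
def ee (e : V → V → ℤ) (X Y : Finset V) : ℤ := ∑ u ∈ X, ∑ v ∈ Y, e u v

omit [DecidableEq V] in
lemma ee_symm {e : V → V → ℤ} (he : ∀ u v, e u v = e v u) (X Y : Finset V) :
    ee e X Y = ee e Y X := by
  unfold ee
  rw [sum_comm]
  exact sum_congr rfl fun u _ => sum_congr rfl fun v _ => he _ _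

lemma ee_left (e : V → V → ℤ) {X Z : Finset V} (h : Disjoint X Z) (Y : Finset V) :
    ee e (X ∪ Z) Y = ee e X Y + ee e Z Y := sum_union h

lemma ee_right (e : V → V → ℤ) {X Z : Finset V} (h : Disjoint X Z) (Y : Finset V) :
    ee e Y (X ∪ Z) = ee e Y X + ee e Y Z := by
  unfold ee
  rw [← sum_add_distrib]
  exact sum_congr rfl fun u _ => sum_union h

omit [DecidableEq V] in
lemma ee_nonneg {e : V → V → ℤ} (he : ∀ u v, 0 ≤ e u v) (X Y : Finset V) : 0 ≤ ee e X Y :=
  sum_nonneg fun _ _ => sum_nonneg fun _ _ => he _ _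

omit [DecidableEq V] in
lemma ee_mono {e : V → V → ℤ} (he : ∀ u v, 0 ≤ e u v) {X X' Y Y' : Finset V} (hX : X ⊆ X')
    (hY : Y ⊆ Y') : ee e X Y ≤ ee e X' Y' := by
  unfold ee
  refine (sum_le_sum fun u _ => sum_le_sum_of_subset_of_nonneg hY fun v _ _ => he u v).trans ?_
  exact sum_le_sum_of_subset_of_nonneg hX fun u _ _ => sum_nonneg fun v _ => he u v

omit [DecidableEq V] in
lemma ee_zero_or {e : V → V → ℤ} {a : ℤ} (ha : 0 < a) (he : ∀ u v, e u v = 0 ∨ a ≤ e u v)
    (X Y : Finset V) : ee e X Y = 0 ∨ a ≤ ee e X Y := by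
  have h0 : ∀ u v, 0 ≤ e u v := fun u v => by
    rcases he u v with h | h
    · exact h.ge
    · linarith
  by_cases h : ∀ u ∈ X, ∀ v ∈ Y, e u v = 0
  · left
    exact sum_eq_zero fun u hu => sum_eq_zero fun v hv => h u hu v hv
  · right
    push Not at h
    obtain ⟨u, hu, v, hv, huv⟩ := h
    have h1 : a ≤ e u v := (he u v).resolve_left huv
    have h2 : e u v ≤ ∑ v ∈ Y, e u v := single_le_sum (fun v _ => h0 u v) hv
    have h3 : ∑ v ∈ Y, e u v ≤ ee e X Y :=
      single_le_sum (f := fun u => ∑ v ∈ Y, e u v) (fun u _ => sum_nonneg fun v _ => h0 u v) hu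
    linarith

omit [DecidableEq V] in
lemma FF_eq (g : V → ℤ) (e : V → V → ℤ) (Y : Finset V) :
    FF g e Y = 2 * ∑ v ∈ Y, g v - ee e Y Y := rfl

omit [DecidableEq V] in
lemma FF_empty (g : V → ℤ) (e : V → V → ℤ) : FF g e ∅ = 0 := by
  simp [FF]

/-- the identity -/
lemma FF_id (g : V → ℤ) {e : V → V → ℤ} (he : ∀ u v, e u v = e v u) (P Q : Finset V) :
    FF g e (P ∪ Q) + FF g e (P ∩ Q) + 2 * ee e (P \ Q) (Q \ P) = FF g e P + FF g e Q := by
  set X := P \ Q with hX
  set Z := P ∩ Q with hZ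
  set Y := Q \ P with hY
  have hXZ : Disjoint X Z := by
    rw [disjoint_left]; intro x h1 h2
    rw [hX, mem_sdiff] at h1; rw [hZ, mem_inter] at h2
    exact h1.2 h2.2
  have hYZ : Disjoint Y Z := by
    rw [disjoint_left]; intro x h1 h2
    rw [hY, mem_sdiff] at h1; rw [hZ, mem_inter] at h2
    exact h1.2 h2.1
  have hXY : Disjoint X Y := by
    rw [disjoint_left]; intro x h1 h2
    rw [hX, mem_sdiff] at h1; rw [hY, mem_sdiff] at h2
    exact h2.2 h1.1
  have hP : P = X ∪ Z := by
    ext x; rw [hX, hZ, mem_union, mem_sdiff, mem_inter]; tauto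
  have hQ : Q = Y ∪ Z := by
    ext x; rw [hY, hZ, mem_union, mem_sdiff, mem_inter]; tauto
  have hU : P ∪ Q = X ∪ (Y ∪ Z) := by
    ext x; rw [hX, hZ, hY]; simp only [mem_union, mem_sdiff, mem_inter]; tauto
  have hXYZ : Disjoint X (Y ∪ Z) := disjoint_union_right.2 ⟨hXY, hXZ⟩
  rw [hU]
  have eP : FF g e P = FF g e (X ∪ Z) := by rw [← hP]
  have eQ : FF g e Q = FF g e (Y ∪ Z) := by rw [← hQ]
  rw [eP, eQ]
  simp only [FF_eq, sum_union hXZ, sum_union hYZ, sum_union hXYZ, ee_left e hXZ, ee_left e hYZ,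
    ee_left e hXYZ, ee_right e hXZ, ee_right e hYZ, ee_right e hXYZ]
  rw [ee_symm he Y X, ee_symm he Z X, ee_symm he Z Y]
  ring

lemma FF_sub (g : V → ℤ) {e : V → V → ℤ} (he : ∀ u v, e u v = e v u) (h0 : ∀ u v, 0 ≤ e u v)
    (P Q : Finset V) : FF g e (P ∪ Q) + FF g e (P ∩ Q) ≤ FF g e P + FF g e Q := by
  have h1 := FF_id g he P Q
  have h2 := ee_nonneg h0 (P \ Q) (Q \ P)
  linarith

/-- number of covers -/
def cnt (A : V → Finset V) (w : V → ℕ) (Q : Finset V) (x : V) : ℕ :=
  ∑ q ∈ Q, if x ∈ A q then w q else 0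

lemma cnt_pos {A : V → Finset V} {w : V → ℕ} (hw : ∀ q, 1 ≤ w q) (Q : Finset V) (x : V) :
    1 ≤ cnt A w Q x ↔ x ∈ Q.biUnion A := by
  unfold cnt
  rw [mem_biUnion, Nat.one_le_iff_ne_zero, Ne, sum_eq_zero_iff]
  push Not
  constructor
  · rintro ⟨q, hq, h⟩
    refine ⟨q, hq, ?_⟩
    by_contra h'
    exact h (if_neg h')
  · rintro ⟨q, hq, h⟩
    refine ⟨q, hq, ?_⟩
    rw [if_pos h]
    have := hw q
    omega

/-- the doubling inequality -/
lemma doubling (g : V → ℤ) {e : V → V → ℤ} (he : ∀ u v, e u v = e v u) (h0 : ∀ u v, 0 ≤ e u v)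
    {T : Finset V} (hT : ∀ Y, Y ⊆ T → 0 ≤ FF g e Y) {A : V → Finset V} {w : V → ℕ}
    (hw : ∀ q, w q = 1 ∨ w q = 2) (Q : Finset V) (hA : ∀ q ∈ Q, A q ⊆ T) :
    FF g e (Q.biUnion A) + FF g e (T.filter fun x => 2 ≤ cnt A w Q x) ≤
      ∑ q ∈ Q, (w q : ℤ) * FF g e (A q) := by
  induction Q using Finset.induction_on with
  | empty =>
    have h1 : (T.filter fun x => 2 ≤ cnt A w ∅ x) = ∅ := by
      rw [filter_eq_empty_iff]
      intro x _
      simp [cnt]
    rw [h1, biUnion_empty, FF_empty, sum_empty]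
    norm_num
  | insert q Q hq ih =>
    have ih' := ih fun q' hq' => hA q' (mem_insert_of_mem hq')
    have hAq : A q ⊆ T := hA q (mem_insert_self _ _)
    rw [biUnion_insert, sum_insert hq]
    set U := Q.biUnion A with hU
    set D := T.filter fun x => 2 ≤ cnt A w Q x with hD
    have hUT : U ⊆ T := biUnion_subset.2 fun q' hq' => hA q' (mem_insert_of_mem hq')
    have hDT : D ⊆ T := filter_subset _ _
    have hcnt : ∀ x, cnt A w (insert q Q) x = (if x ∈ A q then w q else 0) + cnt A w Q x := by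
      intro x
      unfold cnt
      rw [sum_insert hq]
    have hw1 : ∀ q, 1 ≤ w q := fun q => by rcases hw q with h | h <;> omega
    have s1 := FF_sub g he h0 (A q) U
    rcases hw q with h | h
    · have hD' : (T.filter fun x => 2 ≤ cnt A w (insert q Q) x) = (A q ∩ U) ∪ D := by
        ext x
        rw [hD]
        simp only [mem_filter, mem_union, mem_inter, hcnt, h]
        have hc := cnt_pos (A := A) (w := w) hw1 Q x
        rw [← hU] at hc
        constructor
        · rintro ⟨h1, h2⟩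
          by_cases hx : x ∈ A q
          · rw [if_pos hx] at h2
            exact Or.inl ⟨hx, hc.1 (by omega)⟩
          · rw [if_neg hx] at h2
            exact Or.inr ⟨h1, by omega⟩
        · rintro (⟨h1, h2⟩ | ⟨h1, h2⟩)
          · rw [if_pos h1]
            have := hc.2 h2
            exact ⟨hAq h1, by omega⟩
          · exact ⟨h1, by omega⟩
      rw [hD', h]
      have s2 := FF_sub g he h0 (A q ∩ U) D
      have s3 := hT ((A q ∩ U) ∩ D) ((inter_subset_right).trans hDT)
      push_cast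
      linarith
    · have hD' : (T.filter fun x => 2 ≤ cnt A w (insert q Q) x) = A q ∪ D := by
        ext x
        rw [hD]
        simp only [mem_filter, mem_union, hcnt, h]
        constructor
        · rintro ⟨h1, h2⟩
          by_cases hx : x ∈ A q
          · exact Or.inl hx
          · rw [if_neg hx] at h2
            exact Or.inr ⟨h1, by omega⟩
        · rintro (h1 | ⟨h1, h2⟩)
          · rw [if_pos h1]
            exact ⟨hAq h1, by omega⟩
          · exact ⟨h1, by omega⟩
      rw [hD', h]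
      have s2 := FF_sub g he h0 (A q) D
      have s3 := hT (A q ∩ D) ((inter_subset_right).trans hDT)
      have s4 := hT (A q ∩ U) ((inter_subset_right).trans hUT)
      push_cast
      linarith

/-- the union bound -/
lemma union_le (g : V → ℤ) {e : V → V → ℤ} (he : ∀ u v, e u v = e v u) (h0 : ∀ u v, 0 ≤ e u v)
    {T : Finset V} (hT : ∀ Y, Y ⊆ T → 0 ≤ FF g e Y) {A : V → Finset V}
    (Q : Finset V) (hA : ∀ q ∈ Q, A q ⊆ T) :
    FF g e (Q.biUnion A) ≤ ∑ q ∈ Q, FF g e (A q) := by
  have h1 := doubling g he h0 hT (A := A) (w := fun _ => 1) (fun _ => Or.inl rfl) Q hA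
  have h2 := hT (T.filter fun x => 2 ≤ cnt A (fun _ => 1) Q x) (filter_subset _ _)
  simp only [Nat.cast_one, one_mul] at h1
  linarith

theorem dlem : S_dlem := by
  intro V _ a b d δ g μ e T A hd hb hab hδ hδb he hea hμ hT hprop htot hδR hA
  have ha : 0 < a := by linarith
  have h0 : ∀ u v, 0 ≤ e u v := fun u v => by
    rcases hea u v with h | h
    · exact h.ge
    · linarith
  set R : ℤ := ∑ v ∈ T, μ v with hR
  set Q := T.filter (fun q => 1 ≤ μ q) with hQ
  have hQT : Q ⊆ T := filter_subset _ _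
  have hQm : ∀ q ∈ Q, q ∈ T ∧ 1 ≤ μ q := fun q hq => by rwa [hQ, mem_filter] at hq
  have hAq : ∀ q ∈ Q, q ∈ A q ∧ A q ⊆ T ∧ FF g e (A q) ≤ 2 * d :=
    fun q hq => hA q (hQm q hq).1 (hQm q hq).2
  have hμ0 : ∀ v ∈ T, v ∉ Q → μ v = 0 := by
    intro v hv hvQ
    have h1 : ¬ 1 ≤ μ v := fun h => hvQ (by rw [hQ, mem_filter]; exact ⟨hv, h⟩)
    have h2 := hμ v
    omega
  have hRQ : R = ∑ q ∈ Q, μ q := by
    rw [hR]
    exact (sum_subset hQT fun v hv hvQ => hμ0 v hv hvQ).symm
  have hcard : (Q.card : ℤ) ≤ R := by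
    rw [hRQ, card_eq_sum_ones, Nat.cast_sum]
    exact sum_le_sum fun q hq => by
      rw [Nat.cast_one]; exact (hQm q hq).2
  -- (1) the union is `T`
  have hU : Q.biUnion A = T := by
    by_contra hne
    have hsub : Q.biUnion A ⊆ T := biUnion_subset.2 fun q hq => (hAq q hq).2.1
    have h1 := hprop (Q.biUnion A) (hsub.ssubset_of_ne hne)
    have h2 : ∑ v ∈ T \ Q.biUnion A, μ v = 0 := by
      apply sum_eq_zero
      intro v hv
      rw [mem_sdiff] at hv
      apply hμ0 v hv.1
      intro hvQ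
      exact hv.2 (mem_biUnion.2 ⟨v, hvQ, (hAq v hvQ).1⟩)
    rw [h2] at h1
    have h3 := union_le g he h0 hT Q (fun q hq => (hAq q hq).2.1)
    have h4 : ∑ q ∈ Q, FF g e (A q) ≤ Q.card * (2 * d) := by
      rw [← nsmul_eq_mul]
      exact sum_le_card_nsmul _ _ _ fun q hq => (hAq q hq).2.2
    have h5 : (Q.card : ℤ) * (2 * d) ≤ R * (2 * d) :=
      mul_le_mul_of_nonneg_right hcard (by linarith)
    linarith
  -- (2)
  have hcov : ∀ x ∈ T, ∃ q ∈ Q, x ∈ A q := fun x hx => by
    rw [← hU] at hx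
    exact mem_biUnion.1 hx
  set Yq : V → Finset V := fun q => (Q.erase q).biUnion A with hYq
  have hYT : ∀ q, Yq q ⊆ T := fun q => by
    rw [hYq]
    exact biUnion_subset.2 fun q' hq' => (hAq q' (mem_of_mem_erase hq')).2.1
  have hYA : ∀ q ∈ Q, Yq q ∪ A q = T := by
    intro q hq
    apply subset_antisymm
    · exact union_subset (hYT q) (hAq q hq).2.1
    · intro x hx
      obtain ⟨q', hq', hx'⟩ := hcov x hx
      by_cases h : q' = q
      · subst h
        exact mem_union_right _ hx'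
      · exact mem_union_left _ (mem_biUnion.2 ⟨q', mem_erase.2 ⟨h, hq'⟩, hx'⟩)
  have hBA : ∀ q ∈ Q, A q \ Yq q = T \ Yq q := by
    intro q hq
    ext x
    rw [mem_sdiff, mem_sdiff, ← hYA q hq, mem_union]
    tauto
  have key : ∀ q ∈ Q, μ q = 1 → (T \ Yq q).Nonempty →
      ee e (Yq q \ A q) (T \ Yq q) = 0 ∧ FF g e (A q) ≤ FF g e (Yq q ∩ A q) := by
    intro q hq hμq hne
    have hss : Yq q ⊂ T := by
      refine (hYT q).ssubset_of_ne fun h => ?_
      rw [h, sdiff_self] at hne
      exact not_nonempty_empty hne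
    have h1 := hprop (Yq q) hss
    have h2 : ∑ v ∈ T \ Yq q, μ v ≤ 1 := by
      calc ∑ v ∈ T \ Yq q, μ v ≤ ∑ v ∈ T \ Yq q, (if v = q then 1 else 0 : ℤ) := by
            apply sum_le_sum
            intro v hv
            rw [mem_sdiff] at hv
            split_ifs with h
            · rw [h, hμq]
            · apply le_of_eq
              apply hμ0 v hv.1
              intro hvQ
              exact hv.2 (mem_biUnion.2 ⟨v, mem_erase.2 ⟨h, hvQ⟩, (hAq v hvQ).1⟩)
        _ ≤ 1 := by
            rw [sum_ite_eq']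
            split_ifs <;> norm_num
    have h3 : FF g e T ≤ FF g e (Yq q) := by nlinarith
    have h4 := FF_id g he (Yq q) (A q)
    rw [hYA q hq, hBA q hq] at h4
    have h5 : FF g e (Yq q) ≤ (R - 1) * (2 * d) := by
      have h6 := union_le g he h0 hT (Q.erase q)
        (fun q' hq' => (hAq q' (mem_of_mem_erase hq')).2.1)
      have h7 : ∑ q' ∈ Q.erase q, FF g e (A q') ≤ (Q.erase q).card * (2 * d) := by
        rw [← nsmul_eq_mul]
        exact sum_le_card_nsmul _ _ _ fun q' hq' => (hAq q' (mem_of_mem_erase hq')).2.2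
      have h8 : ((Q.erase q).card : ℤ) = Q.card - 1 := by
        rw [card_erase_of_mem hq, Nat.cast_sub (card_pos.2 ⟨q, hq⟩)]
        norm_num
      rw [h8] at h7
      have h9 : ((Q.card : ℤ) - 1) * (2 * d) ≤ (R - 1) * (2 * d) :=
        mul_le_mul_of_nonneg_right (by linarith) (by linarith)
      exact h6.trans (h7.trans h9)
    have h6 := hT (Yq q ∩ A q) (inter_subset_left.trans (hYT q))
    have h7 := (hAq q hq).2.2
    have hE : ee e (Yq q \ A q) (T \ Yq q) = 0 := by
      rcases ee_zero_or ha hea (Yq q \ A q) (T \ Yq q) with h | h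
      · exact h
      · exfalso
        nlinarith
    refine ⟨hE, ?_⟩
    rw [hE] at h4
    linarith
  -- (3)
  have step3 : ∀ Q' : Finset V, Q' ⊆ Q.filter (fun q => μ q = 1) →
      FF g e T ≤ FF g e (T \ Q'.biUnion fun q => T \ Yq q) := by
    intro Q'
    induction Q' using Finset.induction_on with
    | empty => intro _; rw [biUnion_empty, sdiff_empty]
    | insert q Q' hq ih =>
      intro hsub
      have ih' := ih ((subset_insert _ _).trans hsub)
      have hq1 := hsub (mem_insert_self q Q')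
      rw [mem_filter] at hq1
      obtain ⟨hqQ, hμq⟩ := hq1
      rw [biUnion_insert]
      rcases (T \ Yq q).eq_empty_or_nonempty with hB | hB
      · rw [hB, empty_union]
        exact ih'
      obtain ⟨hE, hC⟩ := key q hqQ hμq hB
      set W := Q'.biUnion fun q => T \ Yq q with hW
      have hAW : ∀ x ∈ A q, x ∉ W := by
        intro x hx hxW
        rw [hW, mem_biUnion] at hxW
        obtain ⟨q', hq', hx'⟩ := hxW
        rw [mem_sdiff] at hx'
        have hne : q ≠ q' := fun h => hq (h ▸ hq')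
        exact hx'.2 (mem_biUnion.2 ⟨q, mem_erase.2 ⟨hne, hqQ⟩, hx⟩)
      have hBA' : ∀ x, x ∈ T → x ∉ Yq q → x ∈ A q := by
        intro x hx hx'
        have := hYA q hqQ
        rw [← this, mem_union] at hx
        exact hx.resolve_left hx'
      have hAT := (hAq q hqQ).2.1
      have e1 : (T \ (T \ Yq q ∪ W)) ∪ A q = T \ W := by
        ext x
        simp only [mem_union, mem_sdiff]
        constructor
        · rintro (⟨h1, h2⟩ | h)
          · exact ⟨h1, fun h => h2 (Or.inr h)⟩
          · exact ⟨hAT h, hAW x h⟩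
        · rintro ⟨h1, h2⟩
          by_cases h3 : x ∈ Yq q
          · refine Or.inl ⟨h1, ?_⟩
            rintro (h | h)
            · exact h.2 h3
            · exact h2 h
          · exact Or.inr (hBA' x h1 h3)
      have e2 : (T \ (T \ Yq q ∪ W)) ∩ A q = Yq q ∩ A q := by
        ext x
        simp only [mem_inter, mem_union, mem_sdiff]
        constructor
        · rintro ⟨⟨h1, h2⟩, h3⟩
          refine ⟨?_, h3⟩
          by_contra h
          exact h2 (Or.inl ⟨h1, h⟩)
        · rintro ⟨h1, h2⟩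
          refine ⟨⟨hAT h2, ?_⟩, h2⟩
          rintro (h | h)
          · exact h.2 h1
          · exact hAW x h2 h
      have e3 : A q \ (T \ (T \ Yq q ∪ W)) ⊆ T \ Yq q := by
        intro x hx
        simp only [mem_union, mem_sdiff, not_and, not_not] at hx
        rcases hx.2 (hAT hx.1) with h | h
        · exact mem_sdiff.2 h
        · exact absurd h (hAW x hx.1)
      have e4 : (T \ (T \ Yq q ∪ W)) \ A q ⊆ Yq q \ A q := by
        intro x hx
        simp only [mem_union, mem_sdiff] at hx ⊢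
        refine ⟨?_, hx.2⟩
        by_contra h
        exact hx.1.2 (Or.inl ⟨hx.1.1, h⟩)
      have h4 := FF_id g he (T \ (T \ Yq q ∪ W)) (A q)
      rw [e1, e2] at h4
      have h5 : ee e ((T \ (T \ Yq q ∪ W)) \ A q) (A q \ (T \ (T \ Yq q ∪ W))) ≤ 0 := by
        rw [← hE]
        exact ee_mono h0 e4 e3
      have h6 := ee_nonneg h0 ((T \ (T \ Yq q ∪ W)) \ A q) (A q \ (T \ (T \ Yq q ∪ W)))
      linarith
  have h3 := step3 _ (Subset.refl _)
  -- (4)
  set w : V → ℕ := fun q => if μ q = 1 then 1 else 2 with hw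
  have hw12 : ∀ q, w q = 1 ∨ w q = 2 := fun q => by
    rw [hw]; simp only; split_ifs
    · exact Or.inl rfl
    · exact Or.inr rfl
  have hwμ : ∀ q ∈ Q, (w q : ℤ) ≤ μ q := by
    intro q hq
    have h1 := (hQm q hq).2
    rw [hw]; simp only
    split_ifs with h
    · rw [h]; norm_num
    · push_cast; omega
  have h4 := doubling g he h0 hT (A := A) (w := w) hw12 Q (fun q hq => (hAq q hq).2.1)
  rw [hU] at h4
  have hDD : (T.filter fun x => 2 ≤ cnt A w Q x) =
      T \ (Q.filter fun q => μ q = 1).biUnion fun q => T \ Yq q := by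
    ext x
    rw [mem_filter, mem_sdiff]
    apply and_congr_right
    intro hx
    rw [mem_biUnion]
    constructor
    · rintro h2 ⟨q, hq, hxq⟩
      rw [mem_filter] at hq
      rw [mem_sdiff] at hxq
      have hcnt : cnt A w Q x ≤ 1 := by
        unfold cnt
        rw [← add_sum_erase Q _ hq.1]
        have h5 : ∑ q' ∈ Q.erase q, (if x ∈ A q' then w q' else 0) = 0 := by
          apply sum_eq_zero
          intro q' hq'
          apply if_neg
          intro h6
          exact hxq.2 (mem_biUnion.2 ⟨q', hq', h6⟩)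
        rw [h5, add_zero]
        have h6 : w q = 1 := by rw [hw]; simp only; rw [if_pos hq.2]
        split_ifs
        · exact h6.le
        · exact Nat.zero_le _
      omega
    · intro h
      by_contra h2
      push Not at h2
      obtain ⟨q, hq, hxq⟩ := hcov x hx
      apply h
      unfold cnt at h2
      rw [← add_sum_erase Q _ hq, if_pos hxq] at h2
      have h5 : w q = 1 ∧ ∑ q' ∈ Q.erase q, (if x ∈ A q' then w q' else 0) = 0 := by
        rcases hw12 q with h | h
        · exact ⟨h, by omega⟩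
        · omega
      have h6 : μ q = 1 := by
        by_contra h7
        have : w q = 2 := by rw [hw]; simp only; rw [if_neg h7]
        omega
      refine ⟨q, mem_filter.2 ⟨hq, h6⟩, mem_sdiff.2 ⟨hx, fun h7 => ?_⟩⟩
      obtain ⟨q', hq', hx'⟩ := mem_biUnion.1 h7
      have h8 := (sum_eq_zero_iff.1 h5.2) q' hq'
      rw [if_pos hx'] at h8
      rcases hw12 q' with h | h <;> omega
  rw [hDD] at h4
  have h5 : ∑ q ∈ Q, (w q : ℤ) * FF g e (A q) ≤ R * (2 * d) := by
    rw [hRQ, sum_mul]
    apply sum_le_sum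
    intro q hq
    calc (w q : ℤ) * FF g e (A q) ≤ (w q : ℤ) * (2 * d) :=
          mul_le_mul_of_nonneg_left (hAq q hq).2.2 (by positivity)
      _ ≤ μ q * (2 * d) := mul_le_mul_of_nonneg_right (hwμ q hq) (by linarith)
  linarith

end Pool.Agent.N199.DF
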